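import Pool.Agent.Lib.CharExpP.Bounded

/-!
# MP_a092f6_al: the case where the subgroup of exponent `p` has bounded class
-/

set_option autoImplicit false

namespace Pool.Agent.Results.MP_a092f6_al.BoundedClass

/-- If a finite `p`-group `G` has a subgroup `H` of exponent `p` and index `p` which is nilpotent
of class at most `c`, then `G` has a characteristic subgroup of exponent `p` and index at most
`p ^ (2 * c)`. -/
theorem result (p c : ℕ) (hp : p.Prime) (G : Type) [Group G] [Finite G] (hG : IsPGroup p G)
    (hH : ∃ H : Subgroup G, H.index = p ∧ (∀ h ∈ H, h ^ p = 1) ∧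
      H.lowerCentralSeries c = ⊥) :
    ∃ K : Subgroup G, K.Characteristic ∧ (∀ k ∈ K, k ^ p = 1) ∧ K.index ≤ p ^ (2 * c) := by
  obtain ⟨H, h1, h2, h3⟩ := hH
  exact Pool.CharExpP.bounded_class hp hG H h1 h2 h3

end Pool.Agent.Results.MP_a092f6_al.BoundedClass
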