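import Pool.Agent.Lib.H80U.Final

/-!
# MP_a092f6_al: the optimal bound and the index of the Hughes subgroup

`Bound` is defined in `Pool.Agent.Lib.CharExpP.Defs`, `HughesBound` in `Pool.Agent.Lib.H80U.Final`.
-/

set_option autoImplicit false

namespace Pool.Agent.Results.MP_a092f6_al.HughesIndex

open Pool.CharExpP Pool.Agent.Lib.H80U

/-- Let `p` be a prime and `p ^ (k (p - 1) + 1) ≤ N < p ^ ((k + 1) (p - 1) + 1)`. Every finite
`p`-group with a subgroup of index `p` and exponent `p` has a characteristic subgroup of exponent
`p` and index at most `N` if and only if the Hughes subgroup (generated by the elements `x` with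
`x ^ p ≠ 1`) of every finite `p`-group not of exponent `p` has index at most `p ^ k`. -/
theorem result (p : ℕ) (hp : p.Prime) (k N : ℕ) (h1 : p ^ (k * (p - 1) + 1) ≤ N)
    (h2 : N < p ^ ((k + 1) * (p - 1) + 1)) : Bound p N ↔ HughesBound p k :=
  main hp k N h1 h2

end Pool.Agent.Results.MP_a092f6_al.HughesIndex
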