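import Pool.Agent.Lib.H51Loop.Final

/-!
# MP_a092f6_al: a lower bound for all primes `p ≥ 5`

The definition `Bound` is in `Pool.Agent.Lib.CharExpP.Defs`.
-/

set_option autoImplicit false

namespace Pool.Agent.Results.MP_a092f6_al.LowerBound

open Pool.CharExpP

/-- For every prime `p ≥ 5` the bound cannot be smaller than `p ^ (2 p - 1)`. -/
theorem result (p : ℕ) (hp : p.Prime) (hp5 : 5 ≤ p) (N : ℕ) (h : Bound p N) :
    p ^ (2 * p - 1) ≤ N :=
  Pool.H51Loop.pow_le_of_bound hp hp5 h

end Pool.Agent.Results.MP_a092f6_al.LowerBound
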