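import Pool.Agent.Lib.H80F.A9b
import Pool.Agent.Lib.CharExpP.Small

/-!
# MP_a092f6_al: the primes `2`, `3` and `5`

The definition `Bound` is in `Pool.Agent.Lib.CharExpP.Defs`.
-/

set_option autoImplicit false

namespace Pool.Agent.Results.MP_a092f6_al.PrimesUpToFive

open Pool.CharExpP

/-- The primes up to `5` settled with the optimal bounds `4`, `27` and `5 ^ 9`. -/
theorem result (p : ℕ) (hp : p.Prime) (hp5 : p ≤ 5) (N : ℕ) :
    Bound p N ↔ (if p = 5 then 5 ^ 9 else p ^ p) ≤ N := by
  have h1 := hp.two_le
  have h4 : p ≠ 4 := by
    rintro rfl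
    exact absurd hp (by decide)
  have hcase : p = 2 ∨ p = 3 ∨ p = 5 := by omega
  rcases hcase with rfl | rfl | rfl
  · rw [if_neg (by decide)]
    constructor
    · intro h
      by_contra hlt
      exact not_bound_pow Nat.prime_two (bound_mono (by omega) h)
    · intro h
      exact bound_mono (by omega) bound_two_four
  · rw [if_neg (by decide)]
    constructor
    · intro h
      by_contra hlt
      exact not_bound_pow Nat.prime_three (bound_mono (by omega) h)
    · intro h
      exact bound_mono h (bound_of_forces Nat.prime_three forces_three_four)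
  · rw [if_pos rfl]
    exact Pool.Agent.Lib.H80F.bound_five N

end Pool.Agent.Results.MP_a092f6_al.PrimesUpToFive
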